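import Pool.Agent.J6H36.LF.Law

/-!
# Cardinalities and consequences
-/

set_option autoImplicit false

universe u

namespace Pool.Agent.J6H36.LF

open Cardinal Pool.Agent.J6H36.BSV

/-- all classes over algebraically closed fields over `P` come from the elements algebraic over `P` -/
def Rigid (T : Theory2.{u}) (P : Type) [Field P] (i : ℤ) (n : ℕ) : Prop :=
  ∀ (Ω : Type u) [Field Ω] [Algebra P Ω] [IsAlgClosed Ω],
    Function.Surjective (T.map i n (algebraMap (algebraicClosure P Ω) Ω))

/-- the groups of countable rings are countable -/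
def CountableGroups (T : Theory2.{u}) : Prop :=
  ∀ (i : ℤ) (n : ℕ) (R : Type u) [CommRing R] [Countable R], Countable (T.H i n R)

theorem countable_closure {R : Type u} [Field R] (t : Finset R) :
    Countable (Subring.closure (t : Set R)) := by
  have h1 := Subfield.cardinalMk_closure_le_max (t : Set R)
  have h2 : Countable (Subfield.closure (t : Set R)) := by
    rw [← Cardinal.mk_le_aleph0_iff]
    refine h1.trans ?_
    simp
  have hle : Subring.closure (t : Set R) ≤ (Subfield.closure (t : Set R)).toSubring := by
    rw [Subring.closure_le]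
    exact Subfield.subset_closure
  have h3 : Countable (Subfield.closure (t : Set R)).toSubring := h2
  exact (Subring.inclusion_injective hle).countable

theorem card_le (T : Theory2.{u}) (hT : CountableGroups T) (i : ℤ) (n : ℕ) (F : Type u) [Field F]
    [Infinite F] : #(T.H i n F) ≤ #F := by
  let g : (Σ t : Finset F, T.H i n (Subring.closure (t : Set F))) → T.H i n F :=
    fun p => T.map i n (Subring.closure (p.1 : Set F)).subtype p.2
  have hg : Function.Surjective g := by
    intro x
    obtain ⟨t, y, hy⟩ := T.lift i n F x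
    exact ⟨⟨t, y⟩, hy⟩
  have h1 := Cardinal.mk_le_of_surjective hg
  refine h1.trans ?_
  rw [Cardinal.mk_sigma]
  have h2 : Cardinal.sum (fun t : Finset F => #(T.H i n (Subring.closure (t : Set F)))) ≤
      Cardinal.sum (fun _ : Finset F => (ℵ₀ : Cardinal.{u})) := by
    apply Cardinal.sum_le_sum
    intro t
    have := countable_closure t
    have h3 := hT i n (Subring.closure (t : Set F))
    exact Cardinal.mk_le_aleph0_iff.mpr h3
  refine h2.trans ?_
  rw [Cardinal.sum_const', Cardinal.mk_finset_of_infinite]
  exact (Cardinal.mul_aleph0_eq (Cardinal.aleph0_le_mk F)).le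

theorem rank_le (T : Theory2.{u}) (hT : CountableGroups T) (i : ℤ) (n : ℕ) (F : Type u) [Field F]
    [Infinite F] : Module.rank ℚ (T.H i n F) ≤ #F :=
  (rank_le_card ℚ (T.H i n F)).trans (card_le T hT i n F)

section prime

variable (T : Theory2.{u}) (P : Type) [Field P] (hP : (⊥ : Subfield P) = ⊤)

include hP in
theorem rank_le_of_rigid (hT : CountableGroups T) (i : ℤ) (n : ℕ) (h : Rigid T P i n)
    (F : Type u) [Field F] [Algebra P F] : Module.rank ℚ (T.H i n F) ≤ ℵ₀ := by
  have : Countable P := countable_prime P hP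
  have hc : Countable (algebraicClosure P (AlgebraicClosure F)) := by
    have h1 := Algebra.IsAlgebraic.lift_cardinalMk_le_max P
      (algebraicClosure P (AlgebraicClosure F))
    rw [← Cardinal.mk_le_aleph0_iff]
    have h2 : Cardinal.lift.{u} #P ≤ ℵ₀ := by
      rw [Cardinal.lift_le_aleph0]
      exact Cardinal.mk_le_aleph0
    have h3 := h1.trans (max_le h2 le_rfl)
    simpa using h3
  have h1 := hT i n (algebraicClosure P (AlgebraicClosure F))
  have h2 : Countable (T.H i n (AlgebraicClosure F)) := (h (AlgebraicClosure F)).countable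
  have h3 : Countable (T.H i n F) :=
    (map_inj T i n (algebraMap F (AlgebraicClosure F))).countable
  exact (rank_le_card ℚ (T.H i n F)).trans Cardinal.mk_le_aleph0

include hP in
/-- rigidity in degree `i ≤ 0` implies vanishing -/
theorem zero_of_rigid (i : ℤ) (n : ℕ) (hi : i ≤ 0) (hn : 1 ≤ n) (h : Rigid T P i n)
    (F : Type u) [Field F] [Algebra P F] (x : T.H i n F) : x = 0 := by
  apply map_inj T i n (algebraMap F (AlgebraicClosure F))
  obtain ⟨y, hy⟩ := h (AlgebraicClosure F) (T.map i n (algebraMap F (AlgebraicClosure F)) x)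
  rw [← hy, base_ac T P hP i n hi hn (AlgebraicClosure F) y, map_zero, map_zero]

include hP in
/-- rigidity for `H^0` implies vanishing -/
theorem van_of_rigid_zero (h : ∀ n : ℕ, 1 ≤ n → Rigid T P 0 n) (i : ℤ) (n : ℕ) (hi : i ≤ 0)
    (hn : 1 ≤ n) (F : Type u) [Field F] [Algebra P F] (x : T.H i n F) : x = 0 :=
  van_all T P (fun n hn F _ _ x => zero_of_rigid T P hP 0 n le_rfl hn (h n hn) F x) i n hi hn F x

/-- rigidity for `H^1` implies vanishing -/
theorem van_of_rigid_one (h : ∀ n : ℕ, 2 ≤ n → Rigid T P 1 n) (i : ℤ) (n : ℕ) (hi : i ≤ 0)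
    (hn : 1 ≤ n) (F : Type u) [Field F] [Algebra P F] (x : T.H i n F) : x = 0 := by
  refine van_all T P (fun n hn F _ _ x => ?_) i n hi hn F x
  refine van_of_rigid T P 0 n (fun K _ _ _ hK => ?_) F x
  have h1 := h (n + 1) (by omega) K
  have hsub : Subsingleton (T.H (0 + 1) (n + 1) K ⧸ LinearMap.range
      (T.map (0 + 1) (n + 1) (algebraMap (algebraicClosure P K) K))) := by
    rw [Submodule.Quotient.subsingleton_iff, LinearMap.range_eq_top]
    exact h1
  infer_instance

end prime

end Pool.Agent.J6H36.LF
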