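import Pool.Agent.J6H36.LF.Stm
import Pool.Agent.J6H36.BSV.Law

/-!
# Independent homomorphisms give independent classes
-/

set_option autoImplicit false

universe u

namespace Pool.Agent.J6H36.LF

open Cardinal MvPolynomial Pool.Agent.J6H36.BSV

/-- the images of a nonconstant class under independent homomorphisms are linearly independent
modulo the constant classes -/
theorem li_of_joint (T : Theory.{u}) (i : ℤ) (n : ℕ) (hI : S_INT.{u}) (hS : S_SPEC.{u})
    {k Ω L : Type u} [Field k] [Field Ω] [Algebra k Ω] [CommRing L] [IsAlgClosed k]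
    {I : Type u} (φ : I → (L →+* Ω)) (hφ : Joint k Ω L φ) (y : T.H i n L)
    (hy : ∀ a, T.map i n (φ a) y ∉ LinearMap.range (T.map i n (algebraMap k Ω))) :
    LinearIndependent ℚ (fun a : I => (Submodule.Quotient.mk (T.map i n (φ a) y) :
      T.H i n Ω ⧸ LinearMap.range (T.map i n (algebraMap k Ω)))) := by
  classical
  rw [linearIndependent_iff']
  intro s c hc b hb
  by_contra hcb
  have h1 : ∑ a ∈ s, c a • (Submodule.Quotient.mk (T.map i n (φ a) y) :
      T.H i n Ω ⧸ LinearMap.range (T.map i n (algebraMap k Ω))) =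
      Submodule.Quotient.mk (∑ a ∈ s, c a • T.map i n (φ a) y) := by
    rw [← Submodule.mkQ_apply, map_sum]
    rfl
  rw [h1, Submodule.Quotient.mk_eq_zero] at hc
  obtain ⟨A, hAc, J, hJ, t, ht, htA, htB⟩ := hφ b (s.erase b) (Finset.notMem_erase b s)
  -- the ring of the elements algebraic over `k(t)`
  let B : Subring Ω := (Subalgebra.algebraicClosure (Algebra.adjoin k (Set.range t)) Ω).toSubring
  have hB : T.map i n (φ b) y ∈ Over T i n B :=
    map_mem_Over T i n (φ b) B (fun x => htB x) y
  have hkA : LinearMap.range (T.map i n (algebraMap k Ω)) ≤ Over T i n A.toSubring := by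
    rintro _ ⟨z, rfl⟩
    exact map_mem_Over T i n (algebraMap k Ω) A.toSubring (fun x => A.algebraMap_mem x) z
  have hA : T.map i n (φ b) y ∈ Over T i n A.toSubring := by
    have h2 : T.map i n (φ b) y = (c b)⁻¹ •
        ((∑ a ∈ s, c a • T.map i n (φ a) y) -
          ∑ a ∈ s.erase b, c a • T.map i n (φ a) y) := by
      rw [← Finset.add_sum_erase s _ hb, add_sub_cancel_right, smul_smul,
        inv_mul_cancel₀ hcb, one_smul]
    rw [h2]
    refine Submodule.smul_mem _ _ (Submodule.sub_mem _ (hkA hc) (Submodule.sum_mem _ ?_))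
    intro a ha
    exact Submodule.smul_mem _ _ (map_mem_Over T i n (φ a) A.toSubring
      (fun x => htA a ha x) y)
  obtain ⟨z, hz⟩ := over_int' T i n hI hS A hAc J t ht B (fun z hz => hz) _ hA hB
  exact hy b ⟨z, hz⟩

/-- sums over a finite group of independent classes are independent -/
theorem li_sum {V W : Type*} [AddCommGroup V] [Module ℚ V] [AddCommGroup W] [Module ℚ W]
    {ι G : Type*} [Fintype G] [Nonempty G] (v : ι × G → V) (hv : LinearIndependent ℚ v) (z : ι → W)
    (q : W →ₗ[ℚ] V) (hz : ∀ j, q (z j) = ∑ σ, v (j, σ)) : LinearIndependent ℚ z := by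
  classical
  rw [linearIndependent_iff']
  intro s c hc j hj
  have h1 : ∑ p ∈ s ×ˢ (Finset.univ : Finset G), c p.1 • v p = 0 := by
    rw [Finset.sum_product]
    have h2 := congrArg q hc
    rw [map_sum, map_zero] at h2
    rw [← h2]
    refine Finset.sum_congr rfl fun a _ => ?_
    rw [map_smul, hz, Finset.smul_sum]
  obtain ⟨σ⟩ := ‹Nonempty G›
  have h3 := (linearIndependent_iff'.mp hv) (s ×ˢ Finset.univ) (fun p => c p.1) h1 (j, σ)
    (Finset.mem_product.mpr ⟨hj, Finset.mem_univ _⟩)
  exact h3

end Pool.Agent.J6H36.LF
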