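import Pool.Agent.J6H36.LF.Stm

/-!
# Project LF, second part: fields with many general points; real closed fields; cardinalities
-/

set_option autoImplicit false

universe u

namespace Pool.Agent.J6H36.LF

open Cardinal MvPolynomial Pool.Agent.J6H36.BSV

/-- over some finite Galois extension of `K` every hypersurface with a nonsingular algebraic point has `#K` many
independent general points -/
def Big (P : Type) [Field P] (K : Type u) [Field K] [Algebra P K] : Prop :=
  ∀ (S : Finset (AlgebraicClosure K)), (∀ z ∈ S, IsAlgebraic P z) →
  ∃ (A : IntermediateField K (AlgebraicClosure K)) (m : ℕ) (e : Module.Basis (Fin m) K A),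
    FiniteDimensional K A ∧ IsGalois K A ∧ (S : Set (AlgebraicClosure K)) ⊆ A ∧
    (∀ l, IsAlgebraic P (e l : AlgebraicClosure K)) ∧
    ∀ (d : ℕ) (f : MvPolynomial (Option (Fin d)) P) (t₀ : Fin d → A) (a₀ : A),
      (∀ i, IsAlgebraic P (t₀ i : AlgebraicClosure K)) →
      aeval (pt a₀ t₀) f = 0 → aeval (pt a₀ t₀) (pderiv none f) ≠ 0 →
      ∃ b : K × (Fin d × Fin m) → K, AlgebraicIndependent P b ∧
        ∀ j, ∃ a : A, aeval (pt a (fun i => t₀ i + ∑ l, b (j, (i, l)) • e l)) f = 0

/-- `K(√-1)` is algebraically closed (i.e. `K` is real closed or algebraically closed) -/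
def IClosed (K : Type u) [Field K] : Prop :=
  ∀ z : AlgebraicClosure K, z ^ 2 = -1 → IntermediateField.adjoin K {z} = ⊤

/-- Module RCB: uncountable real closed or algebraically closed fields are `Big`.

Proof.  `z : AlgebraicClosure K` with `z ^ 2 = -1`, `K(z) = ⊤`.  Take `A = ⊤`, so `S ⊆ A`; `FiniteDimensional K A` since `z` is integral.
`A / K` is Galois: if `z ∈ K` then `K(z) = ⊥ = ⊤`, i.e. `K = AlgebraicClosure K`, trivial; otherwise (then
`char K ≠ 2`, as in characteristic 2 `z = 1`) `X ^ 2 + 1` is separable and `K(z)` is its splitting field.  Basis: `e = 1` or `e = (1, z)`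
(power basis of `z`; or any basis chosen from the spanning family `![1, z]`), algebraic over `P` (as `z ^ 2 + 1 = 0`).
(Shortcut for both: use `S_GALF` applied to `insert z S`: it gives `A` with all properties, and `A = ⊤` because `z ∈ A`.)
`K` is uncountable and `P` is countable, so a transcendence basis `B` of `K` over `P` has `#B = #K`; choose an injection
`K × (Fin d × Fin m) → B` (`#(K × finite) ≤ #K`); this is `b`, algebraically independent over `P`.  Let `j : K` and
`t i = t₀ i + ∑ l, b (j, (i, l)) • e l`.  By `S_CONJ` (with `σ = 1`), `t` is algebraically independent over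
`algebraicClosure P _`, so over `P`.  View `f` as a polynomial in `Y = X none` over `MvPolynomial (Fin d) P`
(`MvPolynomial.optionEquivLeft`); as `pderiv none f ≠ 0` it has positive degree; its leading coefficient `c` has
`aeval t c ≠ 0`.  So `f(t, Y)` is a polynomial of positive degree over `A = ⊤ ≃ AlgebraicClosure K`, which is algebraically
closed; it has a root `a`. -/
def S_RCB : Prop := S_GALF.{u} → S_CONJ.{u} → ∀ (P : Type) [Field P] [PerfectField P] [Countable P]
  (K : Type u) [Field K] [Algebra P K], ℵ₀ < #K → IClosed K → Big P K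

end Pool.Agent.J6H36.LF
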