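import Pool.Agent.J6H36.LF.LI
import Pool.Agent.J6H36.LF.Stm2
import Pool.Agent.J6H36.BSV.Main

/-!
# The law for complete valued fields
-/

set_option autoImplicit false

universe u

namespace Pool.Agent.J6H36.LF

open Cardinal MvPolynomial Pool.Agent.J6H36.BSV

theorem aeval_pt {P R S : Type*} [CommSemiring P] [CommSemiring R] [CommSemiring S] [Algebra P R]
    [Algebra P S] (g : R →ₐ[P] S) {d : ℕ} (a : R) (t : Fin d → R)
    (f : MvPolynomial (Option (Fin d)) P) :
    g (aeval (pt a t) f) = aeval (pt (g a) (fun i => g (t i))) f := by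
  rw [← AlgHom.comp_apply, comp_aeval]
  congr 2
  funext o
  cases o <;> rfl

section prime

variable (P : Type) [Field P] (hP : (⊥ : Subfield P) = ⊤)

include hP in
theorem countable_prime : Countable P := by
  have h1 := Subfield.cardinalMk_closure_le_max (∅ : Set P)
  rw [Subfield.closure_empty, hP] at h1
  have h2 : #(⊤ : Subfield P) = #P := Cardinal.mk_congr (Equiv.Set.univ P)
  rw [h2] at h1
  rw [← Cardinal.mk_le_aleph0_iff]
  refine h1.trans ?_
  simp

include hP in
theorem perfect_prime : PerfectField P := by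
  obtain ⟨p, hp⟩ := CharP.exists P
  rcases CharP.char_is_prime_or_zero P p with h | h
  · have : Fact p.Prime := ⟨h⟩
    let _ : Algebra (ZMod p) P := ZMod.algebra P p
    have h1 : (⊥ : Subfield P) = (algebraMap (ZMod p) P).fieldRange := Subfield.bot_eq_of_zMod_algebra p
    have hs : Function.Surjective (algebraMap (ZMod p) P) := by
      intro x
      have hx : x ∈ (⊤ : Subfield P) := Subfield.mem_top x
      rw [← hP, h1] at hx
      exact hx
    have : Finite P := Finite.of_surjective _ hs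
    infer_instance
  · subst h
    have : CharZero P := CharP.charP_to_charZero P
    infer_instance

end prime

set_option maxHeartbeats 1000000 in
/-- The law for fields with many general points. -/
theorem big_law (hM : S_MODEL.{u}) (hPt : S_POINT.{u})
    (hC : S_CONJ.{u}) (hJ : S_JOINT.{u}) (hCmp : S_CMP.{u})
    (T : Theory2.{u}) (i : ℤ) (n : ℕ) (P : Type) [Field P] (hP : (⊥ : Subfield P) = ⊤)
    (K : Type u) [Field K] [Algebra P K] (hBig : Big P K) :
    (∀ (Ω : Type u) [Field Ω] [Algebra P Ω] [IsAlgClosed Ω],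
      Function.Surjective (T.map i n (algebraMap (algebraicClosure P Ω) Ω))) ∨
    #K ≤ Module.rank ℚ (T.H i n K) := by
  classical
  have : Countable P := countable_prime P hP
  have : PerfectField P := perfect_prime P hP
  by_contra hcon
  rw [not_or] at hcon
  obtain ⟨hns, hrk⟩ := hcon
  apply hrk
  have hex : ∃ (Ω' : Type u) (_ : Field Ω') (_ : Algebra P Ω') (_ : IsAlgClosed Ω') (x : T.H i n Ω'),
      x ∉ LinearMap.range (T.map i n (algebraMap (algebraicClosure P Ω') Ω')) := by
    by_contra h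
    apply hns
    intro Ω _ _ _ x
    by_contra hx
    exact h ⟨Ω, inferInstance, inferInstance, inferInstance, x, hx⟩
  obtain ⟨Ω', _, _, _, x, hx⟩ := hex
  obtain ⟨Z, y0, hy0⟩ := T.lift i n Ω' x
  obtain ⟨L, d, t, a, f, hZL, halg, hf0, hf1, hext⟩ := hM P Ω' Z
  have hcl : Subring.closure (Z : Set Ω') ≤ L.toSubring := by
    rw [Subring.closure_le]
    exact hZL
  let y : T.H i n L := T.map i n (Subring.inclusion hcl : _ →+* L) y0
  have hy : T.map i n (algebraMap L Ω') y = x := by
    rw [← T.map_comp, ← hy0]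
    rfl
  let Ω := AlgebraicClosure K
  let k := algebraicClosure P Ω
  have hk : IsAlgClosed k := instAlgClosedAC P Ω
  obtain ⟨t0, a0, h0, h1⟩ := hPt P d f (pderiv none f) L t a hf0 hf1 k
  have halgk : ∀ z : k, IsAlgebraic P (z : Ω) := fun z => mem_algebraicClosure_iff.mp z.2
  let S : Finset Ω := insert (a0 : Ω) (Finset.univ.image fun i => (t0 i : Ω))
  have hS : ∀ z ∈ S, IsAlgebraic P z := by
    intro z hz
    rw [Finset.mem_insert, Finset.mem_image] at hz
    rcases hz with rfl | ⟨j, -, rfl⟩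
    · exact halgk a0
    · exact halgk (t0 j)
  obtain ⟨A, m, e, hfd, hgal, hSA, hel, hroot⟩ := hBig S hS
  let t0A : Fin d → A := fun i => ⟨t0 i, hSA (Finset.mem_insert_of_mem
    (Finset.mem_image_of_mem _ (Finset.mem_univ _)))⟩
  let a0A : A := ⟨a0, hSA (Finset.mem_insert_self _ _)⟩
  let vA : A →ₐ[P] Ω := A.val.restrictScalars P
  have hvA : Function.Injective vA := Subtype.val_injective
  have hkA : ∀ g : MvPolynomial (Option (Fin d)) P,
      vA (aeval (pt a0A t0A) g) = ((aeval (pt a0 t0) g : k) : Ω) := by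
    intro g
    have h2 := aeval_pt k.val a0 t0 g
    rw [aeval_pt vA a0A t0A g]
    exact h2.symm
  have hf0A : aeval (pt a0A t0A) f = 0 := by
    apply hvA
    rw [hkA, h0, map_zero]
    rfl
  have hf1A : aeval (pt a0A t0A) (pderiv none f) ≠ 0 := by
    intro h2
    have h3 := hkA (pderiv none f)
    rw [h2, map_zero] at h3
    apply h1
    apply Subtype.val_injective
    exact h3.symm
  obtain ⟨b, hb, hbr⟩ := hroot d f t0A a0A (fun i => halgk (t0 i)) hf0A hf1A
  let T1 : K → Fin d → A := fun j i => t0A i + ∑ l, b (j, (i, l)) • e l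
  choose aj haj using hbr
  have hci := hC P K Ω A m e hel d t0A (fun i => halgk (t0 i)) K b hb
  have hind : ∀ j, AlgebraicIndependent P (T1 j) := by
    intro j
    have h2 := hci.comp (fun i : Fin d => ((j, (1 : A ≃ₐ[K] A)), i))
      (fun i i' h => (Prod.ext_iff.mp h).2)
    have h3 : AlgebraicIndependent P (vA ∘ T1 j) :=
      AlgebraicIndependent.restrictScalars (R := P) (K := k) (algebraMap P k).injective h2
    exact (AlgHom.algebraicIndependent_iff vA hvA).mp h3
  choose φ hφ using fun j : K => hext A (T1 j) (aj j) (hind j) (haj j)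
  let Φ : K × (A ≃ₐ[K] A) → (L →ₐ[P] Ω) := fun p =>
    vA.comp (((p.2 : A →ₐ[K] A).restrictScalars P).comp (φ p.1))
  have hJoint : Joint k Ω L (fun p => (Φ p : L →+* Ω)) := by
    refine hJ P k Ω L d t halg (K × (A ≃ₐ[K] A)) Φ ?_
    have h2 : (fun p : (K × (A ≃ₐ[K] A)) × Fin d => Φ p.1 (t p.2)) =
        (fun p : (K × (A ≃ₐ[K] A)) × Fin d =>
          ((p.1.2 (t0A p.2 + ∑ l, b (p.1.1, (p.2, l)) • e l) : A) : Ω)) := by
      funext p
      change ((p.1.2 (φ p.1.1 (t p.2)) : A) : Ω) = _
      rw [hφ]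
    rw [h2]
    exact hci
  have hyn : ∀ p, T.map i n (Φ p : L →+* Ω) y ∉
      LinearMap.range (T.map i n (algebraMap k Ω)) := by
    intro p hp
    apply hx
    rw [← hy]
    exact hCmp Pool.Agent.J6H50.BSV.t_INJ T.toTheory i n P Ω Ω' L y (Φ p) hp
  have hLI := li_of_joint T.toTheory i n Pool.Agent.J6H35.BSV.t_INT
    Pool.Agent.J6H72.BSV.t_SPEC (fun p => (Φ p : L →+* Ω)) hJoint y hyn
  -- descent
  have : Fintype (A ≃ₐ[K] A) := Fintype.ofFinite _
  let w : K → T.H i n A := fun j => ∑ σ : A ≃ₐ[K] A,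
    T.map i n (σ : A →+* A) (T.map i n (φ j : L →+* A) y)
  have hw : ∀ (j : K) (τ : A ≃ₐ[K] A), T.map i n (τ : A →+* A) (w j) = w j := by
    intro j τ
    change T.map i n (τ : A →+* A) (∑ σ : A ≃ₐ[K] A, _) = ∑ σ : A ≃ₐ[K] A, _
    rw [map_sum]
    refine Fintype.sum_equiv (Equiv.mulLeft τ) _ _ fun σ => ?_
    rw [← T.map_comp]
    rfl
  choose z hz using fun j => T.gal i n K A (w j) (hw j)
  let q : T.H i n K →ₗ[ℚ] (T.H i n Ω ⧸ LinearMap.range (T.map i n (algebraMap k Ω))) :=
    (Submodule.mkQ _).comp (T.map i n (algebraMap K Ω))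
  have hq : ∀ j, q (z j) = ∑ σ : A ≃ₐ[K] A, (Submodule.Quotient.mk
      (T.map i n (Φ (j, σ) : L →+* Ω) y) :
      T.H i n Ω ⧸ LinearMap.range (T.map i n (algebraMap k Ω))) := by
    intro j
    have h2 : T.map i n (algebraMap K Ω) (z j) = T.map i n (algebraMap A Ω) (w j) := by
      rw [← hz, ← T.map_comp]
      rfl
    change Submodule.mkQ _ (T.map i n (algebraMap K Ω) (z j)) = _
    rw [h2]
    change Submodule.mkQ _ (T.map i n (algebraMap A Ω) (∑ σ : A ≃ₐ[K] A, _)) = _
    rw [map_sum, map_sum]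
    refine Finset.sum_congr rfl fun σ _ => ?_
    rw [← T.map_comp, ← T.map_comp]
    rfl
  have hli := li_sum (fun p : K × (A ≃ₐ[K] A) => (Submodule.Quotient.mk
      (T.map i n (Φ p : L →+* Ω) y) :
      T.H i n Ω ⧸ LinearMap.range (T.map i n (algebraMap k Ω)))) hLI z q hq
  exact hli.cardinal_le_rank

/-- complete valued fields have many general points -/
theorem big_of_complete (hSm : S_SMALL.{u}) (hIFT : S_IFT.{u}) (hG : S_GALF.{u}) (P : Type) [Field P]
    [PerfectField P] [Countable P] (K : Type u) [NontriviallyNormedField K] [CompleteSpace K]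
    [Algebra P K] : Big P K := by
  intro S hS
  obtain ⟨A, m, e, hfd, hgal, hSA, hel⟩ := hG P K (AlgebraicClosure K) S hS
  refine ⟨A, m, e, hfd, hgal, hSA, hel, ?_⟩
  intro d f t₀ a₀ _ h0 h1
  obtain ⟨ε, hε, hroot⟩ := hIFT P K A d m f t₀ a₀ e h0 h1
  obtain ⟨b, hb, hbε⟩ := hSm P K (Fin d × Fin m) ε hε
  exact ⟨b, hb, fun j => hroot (fun p => b (j, p)) (fun p => hbε _)⟩

end Pool.Agent.J6H36.LF
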