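import Pool.Agent.J6H36.BSV.KK

/-!
# Project LF (helper36): complete valued fields and the Beilinson-Soulé vanishing (hard MP_e2821c_ag, second part)

Goal: for a complete (nontrivially) valued field `K` (for example `ℝ`, `ℚ_p`, `𝔽_q((t))`), all `i`, `n`:
`dim H^i(K, ℚ(n)) ≥ #K`, or `H^i(-, ℚ(n))` is rigid over the prime field.  So the Beilinson-Soulé vanishing for all fields of
the characteristic of `K` holds iff `dim H^0(K, ℚ(n)) < #K` for all `n ≥ 1`.

The statements `S_...` are the modules; they are independent of each other.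
-/

set_option autoImplicit false

universe u

namespace Pool.Agent.J6H36.LF

open Cardinal MvPolynomial Pool.Agent.J6H36.BSV

/-- the point with the coordinates `a` and `t` -/
def pt {R : Type*} {d : ℕ} (a : R) (t : Fin d → R) : Option (Fin d) → R := fun o => o.elim a t

/-- the homomorphisms `φ a : L → Ω` are independent over `k` -/
def Joint (k Ω L : Type u) [Field k] [Field Ω] [Algebra k Ω] [CommRing L] {I : Type u}
    (φ : I → (L →+* Ω)) : Prop :=
  ∀ (a : I) (S : Finset I), a ∉ S → ∃ (A : IntermediateField k Ω) (_ : IsAlgClosed A) (J : Type u)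
    (_ : Finite J) (t : J → Ω), AlgebraicIndependent A t ∧ (∀ b ∈ S, ∀ x : L, φ b x ∈ A) ∧
      ∀ x : L, IsAlgebraic (Algebra.adjoin k (Set.range t)) (φ a x)

/-- Module SMALL: many small algebraically independent elements.

Proof.  Let `π : K`, `0 < ‖π‖ < 1` (`NormedField.exists_norm_lt_one`), and `P₁ = IntermediateField.adjoin P {π}`, a countable subfield of
`K`.  `K` is uncountable (`continuum_le_cardinal_of_nontriviallyNormedField`).  A transcendence basis `B` of `K` over `P₁` has
cardinality `#K`: `K` is algebraic over `Algebra.adjoin P₁ B` (`Algebra.IsAlgebraic.cardinalMk_le_max` and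
`MvPolynomial` cardinality `≤ max (#P₁) (#B) ℵ₀`), and `#K > ℵ₀`.  Since `#(K × I) ≤ #K = #B` there is an
injection `g : K × I → B`.  For each `p` choose `n_p` with `‖π ^ n_p * g p‖ < ε` and put `b p = π ^ n_p * g p`.  `b` is
algebraically independent over `P₁`: it is the composite of `g` (algebraically independent) with the
automorphism `X p ↦ π ^ n_p X p` of `MvPolynomial (K × I) P₁` (`π ≠ 0`; the inverse is `X p ↦ π ^ (- n_p) X p`), so
`aeval b` is injective.  So it is algebraically independent over `P` (`AlgebraicIndependent.restrictScalars`). -/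
def S_SMALL : Prop := ∀ (P : Type) [Field P] [Countable P] (K : Type u) [NontriviallyNormedField K]
  [CompleteSpace K] [Algebra P K] (I : Type) [Finite I] (ε : ℝ), 0 < ε →
  ∃ b : K × I → K, AlgebraicIndependent P b ∧ ∀ p, ‖b p‖ < ε

/-- Module IFT: the implicit function theorem for polynomials over a finite extension of a complete field.

Proof.  Give `A` a norm which makes it a normed ring and a normed `K`-algebra: the induced norm for the injective algebra
homomorphism `A → (V →L[K] V)`, `V = Fin r → K`, `r = finrank K A`, given by the left multiplications in a basis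
(`NormedCommRing.induced`; `V →L[K] V` is a normed algebra).  (Or work in `V` with the multiplication as
a continuous bilinear map.)  `A` is finite-dimensional over the complete field `K`, so complete
(`FiniteDimensional.complete`).  For `g : MvPolynomial (Option (Fin d)) P` let `ev g : (Fin d → A) × A → A`, `(t, a) ↦ aeval (pt a t) g`.
By `MvPolynomial.induction_on` there is for every `g` a strict derivative `D` of `ev g` at `(t₀, a₀)`
(`HasStrictFDerivAt`, rules for constants, sums, products, projections) with
`D (0, z) = aeval (pt a₀ t₀) (pderiv none g) * z` for all `z`.  Let `Ψ (t, a) = (t, ev f (t, a))`; its strict derivative at `(t₀, a₀)`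
is `(s, z) ↦ (s, D (s, z))`, and it is surjective, as `D (s, z) = D (s, 0) + f_Y * z` with `f_Y ≠ 0` in the field
`A`.  So `map Ψ (𝓝 (t₀, a₀)) = 𝓝 (t₀, 0)` (`HasStrictFDerivAt.map_nhds_eq_of_surj`); so for all `t` near
`t₀` the point `(t, 0)` is in the range of `Ψ`, i.e. there is `a` with `ev f (t, a) = 0`.  The map
`b ↦ (i ↦ t₀ i + ∑ l, b (i, l) • e l)` is continuous from `Fin d × Fin m → K` (sup norm) with value `t₀` at `0`. -/
def S_IFT : Prop := ∀ (P : Type) [Field P] (K A : Type u) [NontriviallyNormedField K] [CompleteSpace K]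
  [Field A] [Algebra P K] [Algebra K A] [Algebra P A] [IsScalarTower P K A] [FiniteDimensional K A]
  (d m : ℕ) (f : MvPolynomial (Option (Fin d)) P) (t₀ : Fin d → A) (a₀ : A) (e : Fin m → A),
  aeval (pt a₀ t₀) f = 0 → aeval (pt a₀ t₀) (pderiv none f) ≠ 0 →
  ∃ ε : ℝ, 0 < ε ∧ ∀ b : Fin d × Fin m → K, (∀ p, ‖b p‖ < ε) →
    ∃ a : A, aeval (pt a (fun i => t₀ i + ∑ l, b (i, l) • e l)) f = 0

/-- Module MODEL: a finitely generated field over a perfect field is the function field of a hypersurface.

Proof.  `L = IntermediateField.adjoin P Z` is finitely generated over the perfect field `P`, so it is separably generated (Mathlib: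
`Mathlib/FieldTheory/SeparablyGenerated.lean`, e.g. `exists_isTranscendenceBasis_and_isSeparable_of_perfectField`): there is a finite
transcendence basis `t : Fin d → L` such that `L` is separable over `P(t)`, and finite; `L = P(t)(a)` by
`Field.exists_primitive_element`.  The minimal polynomial `μ` of `a` over `P(t)` is separable, and `P(t)` is the fraction
field of `MvPolynomial (Fin d) P`; so there is `f`, a polynomial in `t` and `Y` (`Y = X none`), with
`f(t, Y) = g(t) μ(Y)`, `g ∈ P[t]`, `g ≠ 0`.  `f(t, a) = 0`, `f_Y(t, a) = g(t) μ'(a) ≠ 0`.  Given `Ω'`, `t'`, `a'`: `P(t) → Ω'`,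
`t ↦ t'`, is defined since `t'` is algebraically independent, and `g(t') ≠ 0`, so `a'` is a root of the image of `μ`; so the
homomorphism extends to `P(t)(a) = L` with `a ↦ a'` (`AdjoinRoot.lift` / `IntermediateField.adjoin` root lemmas). -/
def S_MODEL : Prop := ∀ (P : Type) [Field P] [PerfectField P] (Ω : Type u) [Field Ω] [Algebra P Ω]
  (Z : Finset Ω), ∃ (L : IntermediateField P Ω) (d : ℕ) (t : Fin d → L) (a : L)
    (f : MvPolynomial (Option (Fin d)) P), (Z : Set Ω) ⊆ L ∧
    (∀ x : L, IsAlgebraic (Algebra.adjoin P (Set.range t)) x) ∧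
    aeval (pt a t) f = 0 ∧ aeval (pt a t) (pderiv none f) ≠ 0 ∧
    ∀ (Ω' : Type u) [Field Ω'] [Algebra P Ω'] (t' : Fin d → Ω') (a' : Ω'),
      AlgebraicIndependent P t' → aeval (pt a' t') f = 0 → ∃ φ : L →ₐ[P] Ω', ∀ i, φ (t i) = t' i

/-- Module POINT: a point over an algebraically closed field.

Proof (Nullstellensatz).  `R = MvPolynomial (Option (Option (Fin d))) P ⧸ (f, 1 - X none * g)` (`f`, `g` in the variables
`some _`) is nonzero, since `X (some o) ↦ pt a t o`, `X none ↦ (g(t, a))⁻¹` defines a homomorphism `R → L`.  Let `M` be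
a maximal ideal of `R`; `R ⧸ M` is a finitely generated `P`-algebra and a field, so finite over `P`
(`finite_of_finite_type_of_isJacobsonRing`), and it embeds into `k` (`IsAlgClosed.lift`).  The images of the variables are the
point.  (Or: `R` = the subalgebra of `L` generated by the `t i`, `a` and `(g(t, a))⁻¹`, of finite type over `P`.) -/
def S_POINT : Prop := ∀ (P : Type) [Field P] (d : ℕ) (f g : MvPolynomial (Option (Fin d)) P)
  (L : Type u) [Field L] [Algebra P L] (t : Fin d → L) (a : L), aeval (pt a t) f = 0 →
  aeval (pt a t) g ≠ 0 → ∀ (k : Type u) [Field k] [Algebra P k] [IsAlgClosed k],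
  ∃ (t₀ : Fin d → k) (a₀ : k), aeval (pt a₀ t₀) f = 0 ∧ aeval (pt a₀ t₀) g ≠ 0

/-- Module GALF: a finite Galois extension of `K` with a basis of elements which are algebraic over `P`.

Proof.  `q : P[X]` = the product of the distinct minimal polynomials over `P` of the elements of `S`; it is separable since `P` is
perfect.  `R = q.rootSet Ω` (finite), `A = IntermediateField.adjoin K R`, the splitting field over `K` of the separable
polynomial `q.map (algebraMap P K)`, so Galois and finite over `K` (`IsGalois.of_separable_splitting_field`,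
`IntermediateField.adjoin_rootSet_isSplittingField`).  `A` = `Algebra.adjoin K R` is spanned over `K` by
the products of elements of `R` (`Algebra.adjoin_eq_span`), which are algebraic over `P`; choose a basis among them
(`exists_linearIndependent` / `Basis.ofSpan`), finite, reindexed by `Fin m`. -/
def S_GALF : Prop := ∀ (P : Type) [Field P] [PerfectField P] (K Ω : Type u) [Field K] [Field Ω]
  [Algebra P K] [Algebra K Ω] [Algebra P Ω] [IsScalarTower P K Ω] [IsAlgClosed Ω] (S : Finset Ω),
  (∀ z ∈ S, IsAlgebraic P z) → ∃ (A : IntermediateField K Ω) (m : ℕ) (e : Module.Basis (Fin m) K A),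
    FiniteDimensional K A ∧ IsGalois K A ∧ (S : Set Ω) ⊆ A ∧ ∀ l, IsAlgebraic P (e l : Ω)

/-- Module CONJ: all conjugates of sufficiently general elements are algebraically independent.

Proof.  `k = algebraicClosure P Ω`.  `b`, as a family in `Ω`, is algebraically independent over `P`, so over `k`
(`AlgebraicIndependent.algebraicClosure` / `algebraicIndependent` over algebraic extensions).  The numbers `σ (e l)` and `σ (t₀ i)` are
algebraic over `P`, so in `k`.  The matrix `M = (σ (e l))_{σ, l}` over `k` is square (`card (A ≃ₐ[K] A) = finrank K A = m`) and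
invertible: its columns/rows are independent by Dedekind (`linearIndependent_monoidHom`: if `∑_σ c_σ σ (e l) = 0` for all `l` then
`∑_σ c_σ σ = 0` on `A`), or `Algebra.discr_not_zero_of_basis`.  With `N = M⁻¹` the algebra homomorphism
`θ : MvPolynomial ((ι × G) × Fin d) k → MvPolynomial (ι × (Fin d × Fin m)) k`,
`X ((j, σ), i) ↦ C (σ (t₀ i)) + ∑ l, C (M σ l) * X (j, (i, l))`, has the left inverse
`X (j, (i, l)) ↦ ∑ σ, C (N l σ) * (X ((j, σ), i) - C (σ (t₀ i)))`, so it is injective; and `aeval` of the family in question is
`aeval b` composed with `θ`. -/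
def S_CONJ : Prop := ∀ (P : Type) [Field P] (K Ω : Type u) [Field K] [Field Ω]
  [Algebra P K] [Algebra K Ω] [Algebra P Ω] [IsScalarTower P K Ω] [IsAlgClosed Ω]
  (A : IntermediateField K Ω) [FiniteDimensional K A] [IsGalois K A] (m : ℕ)
  (e : Module.Basis (Fin m) K A), (∀ l, IsAlgebraic P (e l : Ω)) → ∀ (d : ℕ) (t₀ : Fin d → A),
  (∀ i, IsAlgebraic P (t₀ i : Ω)) → ∀ (ι : Type u) (b : ι × (Fin d × Fin m) → K),
  AlgebraicIndependent P b → AlgebraicIndependent (algebraicClosure P Ω)
    (fun p : (ι × (A ≃ₐ[K] A)) × Fin d =>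
      ((p.1.2 (t₀ p.2 + ∑ l, b (p.1.1, (p.2, l)) • e l) : A) : Ω))

/-- Module JOINT: algebraic independence of the coordinates implies independence of the homomorphisms.

Proof.  Given `a ∉ S`: `A := KK k {φ b (t i) | b ∈ S, i}` (the algebraic closure in `Ω`, `IsAlgClosed` by
`instIsAlgClosedKK`), `J := ULift (Fin d)`, `t' j := φ a (t j)`.  The families of `a` and of `S` are disjoint parts of an algebraically
independent family, so `t'` is algebraically independent over `k(φ b (t i))` and over its algebraic closure `A`
(`AlgebraicIndependent.adjoin_of_disjoint`, `IntermediateField.algebraicIndependent_adjoin_iff`,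
`AlgebraicIndependent.algebraicClosure`; see the end of Pool/Agent/J6H23/BSV/Copy.lean, the same argument).  For every `x : L` and
`b : I` the element `φ b x` is algebraic over `Algebra.adjoin P (range (φ b ∘ t))` (transport the equation by `φ b`), so over
`Algebra.adjoin k (range (φ b ∘ t))` (`alg_of_subset` in Pool/Agent/J6H36/BSV/Over.lean); `mem_KK`, `alg_adjoin_mono`. -/
def S_JOINT : Prop := ∀ (P : Type) [Field P] (k Ω L : Type u) [Field k] [Field Ω] [Field L]
  [Algebra P k] [Algebra P Ω] [Algebra k Ω] [IsScalarTower P k Ω] [IsAlgClosed Ω] [Algebra P L]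
  (d : ℕ) (t : Fin d → L), (∀ x : L, IsAlgebraic (Algebra.adjoin P (Set.range t)) x) →
  ∀ (I : Type u) (φ : I → (L →ₐ[P] Ω)), AlgebraicIndependent k (fun p : I × Fin d => φ p.1 (t p.2)) →
  Joint k Ω L (fun a => (φ a : L →+* Ω))

/-- Module CMP: a class is constant in `Ω` iff it is constant in `Ω'`.

Proof.  `M := (algebraicClosure L Ω').restrictScalars P`, the algebraic closure of `L` in `Ω'`; it contains `k' = algebraicClosure P Ω'`.
`ψ` extends to `Ψ : M → Ω` (`IsAlgClosed.lift`, `M / L` algebraic).  `Ψ` maps `k'` onto `k = algebraicClosure P Ω` (`Ψ(k')` is algebraic over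
`P` and algebraically closed; or: every `z ∈ k` is a root of a polynomial over `P` which splits in `k'`, so `z ∈ Ψ(k')`),
so `Ψ' : k' → k` is a ring isomorphism and the class `c ∈ H(k)` with `map ψ y = map (k → Ω) c` is `map Ψ' c'`.
So `map Ψ (map (L → M) y) = map Ψ (map (k' → M) c')`, hence `map (L → M) y = map (k' → M) c'` by `S_INJ`, and
mapping to `Ω'` gives the claim. -/
def S_CMP : Prop := S_INJ.{u} → ∀ (T : Theory.{u}) (i : ℤ) (n : ℕ) (P : Type) [Field P] (Ω Ω' : Type u)
  [Field Ω] [Field Ω'] [Algebra P Ω] [Algebra P Ω'] [IsAlgClosed Ω] [IsAlgClosed Ω']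
  (L : IntermediateField P Ω') (y : T.H i n L) (ψ : L →ₐ[P] Ω),
  T.map i n (ψ : L →+* Ω) y ∈ LinearMap.range (T.map i n (algebraMap (algebraicClosure P Ω) Ω)) →
  T.map i n (algebraMap L Ω') y ∈
    LinearMap.range (T.map i n (algebraMap (algebraicClosure P Ω') Ω'))

end Pool.Agent.J6H36.LF
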